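import Mathlib

namespace Pool.Agent.Results.MP_4d6048_al.ElemTwo

open Polynomial

/-- the relators `a_i b_j (b_{i+j} a_{i-j})⁻¹` -/
def rels (X : Type) [AddCommGroup X] : Set (FreeGroup (X ⊕ X)) :=
  {w | ∃ i j : X, w = FreeGroup.of (Sum.inl i) * FreeGroup.of (Sum.inr j) *
    (FreeGroup.of (Sum.inr (i + j)) * FreeGroup.of (Sum.inl (i - j)))⁻¹}

section Gen

variable {G X : Type} [Group G] [AddCommGroup X]

structure Dat (G X : Type) [Group G] [AddCommGroup X] where
  a : G
  t : G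
  u : X → G
  add : ∀ x y, u (x + y) = u x * u y
  at' : a * t = t * a
  rel : ∀ x, a * u x * a⁻¹ = u x * (t * u x * t⁻¹)

variable (D : Dat G X)

theorem Dat.u0 : D.u 0 = 1 := by
  have := D.add 0 0
  rw [add_zero] at this
  simpa using this

theorem Dat.uc (x y : X) : Commute (D.u x) (D.u y) := by
  rw [Commute, SemiconjBy, ← D.add, ← D.add, add_comm]

def Dat.v (n : ℕ) (x : X) : G := D.t ^ n * D.u x * (D.t ^ n)⁻¹

theorem Dat.v_succ (n : ℕ) (x : X) : D.v (n + 1) x = D.t * D.v n x * D.t⁻¹ := by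
  simp only [Dat.v, pow_succ']
  group

theorem Dat.a_v (n : ℕ) (x : X) : D.a * D.v n x * D.a⁻¹ = D.v n x * D.v (n + 1) x := by
  induction n with
  | zero => simpa [Dat.v] using D.rel x
  | succ n ih =>
    have h : D.a * (D.t * D.v n x * D.t⁻¹) * D.a⁻¹ =
        D.t * (D.a * D.v n x * D.a⁻¹) * D.t⁻¹ := by
      calc D.a * (D.t * D.v n x * D.t⁻¹) * D.a⁻¹
          = (D.a * D.t) * D.v n x * (D.a * D.t)⁻¹ := by group
        _ = (D.t * D.a) * D.v n x * (D.t * D.a)⁻¹ := by rw [D.at']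
        _ = _ := by group
    rw [D.v_succ (n + 1), D.v_succ n, h, ih, D.v_succ n]
    group

theorem conj_comm {g x y : G} (h : Commute x y) : Commute (g * x * g⁻¹) (g * y * g⁻¹) := by
  simpa using h.map (MulAut.conj g)

theorem Dat.c1 (x y : X) : Commute (D.u x) (D.v 1 y) := by
  have h := D.rel (y + x)
  have h2 : D.a * (D.u y * D.u x) * D.a⁻¹ =
      (D.a * D.u y * D.a⁻¹) * (D.a * D.u x * D.a⁻¹) := by group
  rw [D.add, h2, D.rel, D.rel] at h
  have h3 : D.t * (D.u y * D.u x) * D.t⁻¹ =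
      (D.t * D.u y * D.t⁻¹) * (D.t * D.u x * D.t⁻¹) := by group
  rw [h3] at h
  simp only [Dat.v, pow_one, Commute, SemiconjBy]
  have h4 : D.u y * (D.t * D.u y * D.t⁻¹ * D.u x) * (D.t * D.u x * D.t⁻¹) =
      D.u y * (D.u x * (D.t * D.u y * D.t⁻¹)) * (D.t * D.u x * D.t⁻¹) := by
    calc _ = D.u y * (D.t * D.u y * D.t⁻¹) * (D.u x * (D.t * D.u x * D.t⁻¹)) := by group
      _ = _ := h
      _ = _ := by group
  exact (mul_left_cancel (mul_right_cancel h4)).symm

theorem Dat.cv (n : ℕ) : ∀ x y : X, Commute (D.u x) (D.v n y) := by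
  have key : ∀ n : ℕ, (∀ x y : X, Commute (D.u x) (D.v n y)) ∧
      ∀ x y : X, Commute (D.u x) (D.v (n + 1) y) := by
    intro n
    induction n with
    | zero => exact ⟨fun x y => by simpa [Dat.v] using D.uc x y, D.c1⟩
    | succ n ih =>
      refine ⟨ih.2, fun x y => ?_⟩
      have h := conj_comm (g := D.a) (ih.2 x y)
      rw [D.rel, D.a_v] at h
      have h1 : Commute (D.t * D.u x * D.t⁻¹) (D.v (n + 1) y * D.v (n + 1 + 1) y) := by
        refine Commute.mul_right ?_ ?_
        · rw [D.v_succ]; exact conj_comm (ih.1 x y)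
        · rw [D.v_succ]; exact conj_comm (ih.2 x y)
      have h2 : Commute (D.u x) (D.v (n + 1) y * D.v (n + 1 + 1) y) := by
        have := h.mul_left h1.inv_left
        simpa [mul_assoc] using this
      have := (ih.2 x y).inv_right.mul_right h2
      simpa using this
  exact (key n).1

def Dat.E : List X → G
  | [] => 1
  | x :: l => D.u x * (D.t * Dat.E l * D.t⁻¹)

theorem Dat.cE (x : X) (l : List X) :
    ∀ n : ℕ, Commute (D.u x) (D.t ^ n * D.E l * (D.t ^ n)⁻¹) := by
  induction l with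
  | nil => intro n; simp [Dat.E]
  | cons y l ih =>
    intro n
    have : D.t ^ n * D.E (y :: l) * (D.t ^ n)⁻¹ =
        D.v n y * (D.t ^ (n + 1) * D.E l * (D.t ^ (n + 1))⁻¹) := by
      simp only [Dat.E, Dat.v, pow_succ]
      group
    rw [this]
    exact (D.cv n x y).mul_right (ih _)

theorem Dat.E_mul (l : List X) : ∀ l' : List X, ∃ m, D.E l * D.E l' = D.E m := by
  induction l with
  | nil => intro l'; exact ⟨l', by simp [Dat.E]⟩
  | cons x l ih =>
    intro l'
    cases l' with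
    | nil => exact ⟨x :: l, by simp [Dat.E]⟩
    | cons y l' =>
      obtain ⟨m, hm⟩ := ih l'
      refine ⟨(x + y) :: m, ?_⟩
      have h := (D.cE y l 1).eq
      rw [pow_one] at h
      simp only [Dat.E, D.add, ← hm]
      calc _ = D.u x * (D.t * D.E l * D.t⁻¹ * D.u y) * (D.t * D.E l' * D.t⁻¹) := by group
        _ = _ := by rw [← h]; group

theorem Dat.E_t (l : List X) : D.t * D.E l * D.t⁻¹ = D.E (0 :: l) := by
  simp [Dat.E, D.u0]

theorem Dat.E_a (l : List X) : ∃ m, D.a * D.E l * D.a⁻¹ = D.E m := by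
  induction l with
  | nil => exact ⟨[], by simp [Dat.E]⟩
  | cons x l ih =>
    obtain ⟨m, hm⟩ := ih
    obtain ⟨m', hm'⟩ := D.E_mul [x, x] (0 :: m)
    refine ⟨m', ?_⟩
    rw [← hm', ← D.E_t, ← hm]
    simp only [Dat.E, mul_one, mul_inv_cancel, ← D.rel]
    calc _ = D.a * D.u x * D.a⁻¹ * ((D.a * D.t) * D.E l * (D.a * D.t)⁻¹) := by group
      _ = _ := by rw [D.at']; group

theorem Dat.E_c (k : ℕ) (l : List X) :
    ∃ m, (D.a * D.t) ^ k * D.E l * ((D.a * D.t) ^ k)⁻¹ = D.E m := by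
  induction k with
  | zero => exact ⟨l, by simp⟩
  | succ k ih =>
    obtain ⟨m, hm⟩ := ih
    obtain ⟨m', hm'⟩ := D.E_a (0 :: m)
    refine ⟨m', ?_⟩
    rw [← hm', ← D.E_t, ← hm, pow_succ']
    simp only [mul_inv_rev, mul_assoc]

def Dat.P (g : G) : Prop :=
  ∃ (k : ℕ) (l : List X) (i j : ℤ),
    (D.a * D.t) ^ k * g * ((D.a * D.t) ^ k)⁻¹ = D.E l * (D.a ^ i * D.t ^ j)

theorem Dat.cat : Commute D.a D.t := D.at'

theorem Dat.P_gen (s : G) (hs : Commute s (D.a * D.t)) (p q : ℤ) (e : ℕ)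
    (h1 : ∀ l, ∃ m, (D.a * D.t) ^ e * s * D.E l * ((D.a * D.t) ^ e * s)⁻¹ = D.E m)
    (h2 : s = D.a ^ p * D.t ^ q) {g : G} (h : D.P g) : D.P (s * g) := by
  obtain ⟨k, l, i, j, h⟩ := h
  obtain ⟨m, hm⟩ := h1 l
  refine ⟨e + k, m, p + i, q + j, ?_⟩
  have c1 : (D.a * D.t) ^ k * s = s * (D.a * D.t) ^ k := (hs.pow_right k).eq.symm
  have c2 : Commute (s * (D.a ^ i * D.t ^ j)) ((D.a * D.t) ^ e) := by
    refine (hs.mul_left (Commute.mul_left ?_ ?_)).pow_right e
    · exact ((Commute.refl _).mul_right D.cat).zpow_left i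
    · exact (D.cat.symm.mul_right (Commute.refl _)).zpow_left j
  have c3 : s * (D.a ^ i * D.t ^ j) = D.a ^ (p + i) * D.t ^ (q + j) := by
    rw [h2, zpow_add, zpow_add]
    exact (D.cat.symm.zpow_zpow q i).mul_mul_mul_comm _ _
  calc _ = (D.a * D.t) ^ e * ((D.a * D.t) ^ k * s) * g * ((D.a * D.t) ^ k)⁻¹ *
        ((D.a * D.t) ^ e)⁻¹ := by rw [pow_add]; group
    _ = (D.a * D.t) ^ e * s * ((D.a * D.t) ^ k * g * ((D.a * D.t) ^ k)⁻¹) *
        ((D.a * D.t) ^ e)⁻¹ := by rw [c1]; group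
    _ = D.E m * ((D.a * D.t) ^ e * (s * (D.a ^ i * D.t ^ j)) * ((D.a * D.t) ^ e)⁻¹) := by
        rw [h, ← hm]; group
    _ = _ := by rw [← c2.eq, c3]; group

theorem Dat.P_a {g : G} (h : D.P g) : D.P (D.a * g) :=
  D.P_gen _ ((Commute.refl _).mul_right D.cat) 1 0 0 (by simpa using D.E_a) (by simp) h

theorem Dat.P_t {g : G} (h : D.P g) : D.P (D.t * g) :=
  D.P_gen _ (D.cat.symm.mul_right (Commute.refl _)) 0 1 0
    (fun l => ⟨0 :: l, by simpa using D.E_t l⟩) (by simp) h

theorem Dat.P_a' {g : G} (h : D.P g) : D.P (D.a⁻¹ * g) :=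
  D.P_gen _ ((Commute.refl _).mul_right D.cat).inv_left (-1) 0 1
    (fun l => ⟨0 :: l, by rw [← D.E_t, pow_one, D.at']; group⟩) (by simp) h

theorem Dat.P_t' {g : G} (h : D.P g) : D.P (D.t⁻¹ * g) :=
  D.P_gen _ (D.cat.symm.mul_right (Commute.refl _)).inv_left 0 (-1) 1
    (by simpa using D.E_a) (by simp) h

theorem Dat.P_u (x : X) {g : G} (h : D.P g) : D.P (D.u x * g) := by
  obtain ⟨k, l, i, j, h⟩ := h
  obtain ⟨m, hm⟩ := D.E_c k [x]
  obtain ⟨m', hm'⟩ := D.E_mul m l
  refine ⟨k, m', i, j, ?_⟩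
  rw [← hm', ← hm, mul_assoc _ (D.E l), ← h]
  simp only [Dat.E, mul_one, mul_inv_cancel]
  group

theorem Dat.E_eq_one (l : List X) (h : ∀ x ∈ l, x = 0) : D.E l = 1 := by
  induction l with
  | nil => rfl
  | cons x l ih =>
    rw [Dat.E, h x (by simp), ih fun y hy => h y (by simp [hy]), D.u0]
    simp

end Gen

section Aff

variable {R : Type} [CommRing R]

def aff (m : Rˣ) (c : R) : Equiv.Perm R where
  toFun z := m * z + c
  invFun z := (m⁻¹ : Rˣ) * (z - c)
  left_inv z := by simp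
  right_inv z := by simp

theorem aff_mul (m n : Rˣ) (c d : R) : aff m c * aff n d = aff (m * n) (m * d + c) := by
  ext z
  simp only [aff, Equiv.Perm.coe_mul, Equiv.coe_fn_mk, Function.comp_apply, Units.val_mul]
  ring

theorem aff_one : aff (1 : Rˣ) 0 = 1 := by
  ext z
  simp [aff]

theorem aff_inv (m : Rˣ) : (aff m 0)⁻¹ = aff m⁻¹ 0 := by
  rw [inv_eq_iff_mul_eq_one, aff_mul]
  simp [aff_one]

end Aff

section Main

variable {X : Type} [AddCommGroup X]

noncomputable def poly (χ : X →+ ZMod 2) : List X → (ZMod 2)[X]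
  | [] => 0
  | x :: l => C (χ x) + Polynomial.X * poly χ l

theorem poly_ne (χ : X →+ ZMod 2) (l : List X) (h : poly χ l = 0) : ∀ x ∈ l, χ x = 0 := by
  induction l with
  | nil => simp
  | cons y l ih =>
    have h0 : χ y = 0 := by simpa [poly] using congrArg (fun p => p.coeff 0) h
    have h1 : poly χ l = 0 := by simpa [poly, h0] using h
    intro x hx
    rcases List.mem_cons.1 hx with rfl | hx
    exacts [h0, ih h1 x hx]

def A (i : X) : PresentedGroup (rels X) := PresentedGroup.of (Sum.inl i)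

def B (i : X) : PresentedGroup (rels X) := PresentedGroup.of (Sum.inr i)

theorem AB (i j : X) : A i * B j = B (i + j) * A (i - j) := by
  rw [← mul_inv_eq_one]
  exact PresentedGroup.one_of_mem (rels := rels X) ⟨i, j, rfl⟩

def hom {H : Type} [Group H] (f g : X → H) (h : ∀ i j, f i * g j = g (i + j) * f (i - j)) :
    PresentedGroup (rels X) →* H :=
  PresentedGroup.toGroup (f := Sum.elim f g) (by
    rintro _ ⟨i, j, rfl⟩
    simp [h])

theorem hom_A {H : Type} [Group H] (f g : X → H) (h) (i : X) : hom f g h (A i) = f i :=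
  PresentedGroup.toGroup.of _

theorem hom_B {H : Type} [Group H] (f g : X → H) (h) (i : X) : hom f g h (B i) = g i :=
  PresentedGroup.toGroup.of _

variable (h2 : ∀ x : X, x + x = 0)
include h2

theorem AB' (i j : X) : A i * B j = A 0 * B (i + j) := by
  have : i - j = 0 - (i + j) := by
    linear_combination (norm := abel) h2 i
  rw [AB, AB, zero_add, this]

theorem B_eq (i : X) : B i = (A 0)⁻¹ * A i * B 0 := by
  rw [mul_assoc, AB' h2 i 0]
  simp

def dat : Dat (PresentedGroup (rels X)) X where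
  a := A 0
  t := A 0 * B 0
  u x := (A 0)⁻¹ * A x
  add x y := by
    have h := AB' h2 x y
    rw [B_eq h2 y, B_eq h2 (x + y)] at h
    apply mul_right_cancel (b := B 0)
    apply mul_left_cancel (a := A 0)
    calc _ = A 0 * ((A 0)⁻¹ * A (x + y) * B 0) := by group
      _ = _ := by rw [← h]; group
  at' := by
    have := AB (0 : X) 0
    simp only [add_zero, sub_zero] at this
    rw [mul_assoc, ← this]
  rel x := by
    have h0 := AB (0 : X) 0
    simp only [add_zero, sub_zero] at h0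
    have h := AB x 0
    simp only [add_zero, sub_zero] at h
    rw [B_eq h2 x] at h
    calc _ = (A x * B 0) * (A 0 * B 0)⁻¹ := by group
      _ = (A 0)⁻¹ * A x * ((B 0 * A 0) * ((A 0)⁻¹ * A x) * (A 0 * B 0)⁻¹) := by rw [h]; group
      _ = _ := by rw [← h0]

theorem normal (g : PresentedGroup (rels X)) : (dat h2).P g := by
  have hg : g ∈ Subgroup.closure (Set.range (PresentedGroup.of (rels := rels X))) := by
    rw [PresentedGroup.closure_range_of]; trivial
  have hu : ∀ x, ((dat h2).u x)⁻¹ = (dat h2).u x := by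
    intro x
    rw [inv_eq_iff_mul_eq_one, ← (dat h2).add, h2, (dat h2).u0]
  have hA : ∀ x, A x = (dat h2).a * (dat h2).u x := by
    intro x; simp [dat]
  have hB : ∀ x, B x = (dat h2).u x * ((dat h2).a⁻¹ * (dat h2).t) := by
    intro x; rw [B_eq h2 x]; simp [dat]
  induction hg using Subgroup.closure_induction_left with
  | one => exact ⟨0, [], 0, 0, by simp [Dat.E]⟩
  | mul_left x hx y _ ih =>
    obtain ⟨x | x, rfl⟩ := hx
    · change (dat h2).P (A x * y)
      rw [hA, mul_assoc]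
      exact Dat.P_a _ (Dat.P_u _ _ ih)
    · change (dat h2).P (B x * y)
      rw [hB, mul_assoc, mul_assoc]
      exact Dat.P_u _ _ (Dat.P_a' _ (Dat.P_t _ ih))
  | inv_mul_cancel x hx y _ ih =>
    obtain ⟨x | x, rfl⟩ := hx
    · change (dat h2).P ((A x)⁻¹ * y)
      rw [hA, mul_inv_rev, hu, mul_assoc]
      exact Dat.P_u _ _ (Dat.P_a' _ ih)
    · change (dat h2).P ((B x)⁻¹ * y)
      rw [hB, mul_inv_rev, mul_inv_rev, hu, inv_inv, mul_assoc, mul_assoc]
      exact Dat.P_t' _ (Dat.P_a _ (Dat.P_u _ _ ih))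

theorem sep_ab (g : PresentedGroup (rels X)) (k : ℕ) (l : List X) (i j : ℤ)
    (h : ((dat h2).a * (dat h2).t) ^ k * g * (((dat h2).a * (dat h2).t) ^ k)⁻¹ =
      (dat h2).E l * ((dat h2).a ^ i * (dat h2).t ^ j)) (hij : ¬ (i = 0 ∧ j = 0)) :
    ∃ (H : Type) (_ : Group H) (_ : Finite H) (f : PresentedGroup (rels X) →* H), f g ≠ 1 := by
  let m := (i + j).natAbs + j.natAbs + 1
  let f : PresentedGroup (rels X) →* Multiplicative (ZMod m × ZMod m) :=
    hom (fun _ => Multiplicative.ofAdd (1, 0)) (fun _ => Multiplicative.ofAdd (0, 1))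
      fun _ _ => mul_comm _ _
  refine ⟨_, inferInstance, inferInstance, f, fun hf => hij ?_⟩
  have hE : ∀ l, f ((dat h2).E l) = 1 := by
    intro l
    induction l with
    | nil => exact map_one f
    | cons x l ih =>
      have hu : f ((dat h2).u x) = 1 := by simp [dat, f, hom_A]
      simp [Dat.E, ih, hu]
  have := congrArg f h
  rw [map_mul, map_mul, hf, mul_one, map_inv, mul_inv_cancel, map_mul, hE, one_mul, map_mul,
    map_zpow, map_zpow] at this
  have h3 := congrArg Multiplicative.toAdd this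
  simp only [dat, f, map_mul, hom_A, hom_B, toAdd_one, toAdd_mul, toAdd_zpow, toAdd_ofAdd,
    Prod.mk_add_mk, Prod.smul_mk, add_zero, zero_add, smul_zero] at h3
  simp only [zsmul_eq_mul, mul_one, Prod.ext_iff, Prod.fst_zero, Prod.snd_zero] at h3
  have e1 : (m : ℤ) ∣ i + j := by
    rw [← ZMod.intCast_zmod_eq_zero_iff_dvd]; push_cast; exact h3.1.symm
  have e2 : (m : ℤ) ∣ j := by
    rw [← ZMod.intCast_zmod_eq_zero_iff_dvd]; exact h3.2.symm
  have f1 := Int.eq_zero_of_dvd_of_natAbs_lt_natAbs e1 (by simp only [m]; omega)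
  have f2 := Int.eq_zero_of_dvd_of_natAbs_lt_natAbs e2 (by simp only [m]; omega)
  omega

theorem sep_aff (l : List X) (hl : (dat h2).E l ≠ 1) :
    ∃ (H : Type) (_ : Group H) (_ : Finite H) (f : PresentedGroup (rels X) →* H),
      f ((dat h2).E l) ≠ 1 := by
  obtain ⟨x, hx, hx0⟩ : ∃ x ∈ l, x ≠ 0 := by
    by_contra hc
    push Not at hc
    exact hl ((dat h2).E_eq_one l hc)
  let : Module (ZMod 2) X := AddCommGroup.zmodModule (n := 2) fun x => by
    rw [two_nsmul, h2]
  obtain ⟨φ, hφ⟩ : ∃ φ : Module.Dual (ZMod 2) X, φ x ≠ 0 := by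
    by_contra hc
    push Not at hc
    exact hx0 ((Module.forall_dual_apply_eq_zero_iff (ZMod 2) x).1 hc)
  let χ : X →+ ZMod 2 := φ.toAddMonoidHom
  have hp : poly χ l ≠ 0 := fun h => hφ (poly_ne χ l h x hx)
  set N := (poly χ l).natDegree with hN
  let p : (ZMod 2)[X] := Polynomial.X ^ (N + 2) + (Polynomial.X ^ (N + 1) - 1)
  have hd : (Polynomial.X ^ (N + 1) - 1 : (ZMod 2)[X]).degree < (N + 2 : ℕ) := by
    rw [← C_1, degree_X_pow_sub_C (by omega)]
    exact_mod_cast (by omega)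
  have hm : p.Monic := monic_X_pow_add hd
  have hdeg : p.natDegree = N + 2 := by
    apply natDegree_eq_of_degree_eq_some
    rw [degree_add_eq_left_of_degree_lt (by rwa [degree_X_pow]), degree_X_pow]
  let α : AdjoinRoot p := AdjoinRoot.root p
  have hα : α ^ (N + 2) + (α ^ (N + 1) - 1) = 0 := by
    have : AdjoinRoot.mk p (Polynomial.X ^ (N + 2) + (Polynomial.X ^ (N + 1) - 1)) = 0 :=
      AdjoinRoot.mk_self
    simpa only [map_add, map_sub, map_pow, map_one, AdjoinRoot.mk_X] using this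
  let S : (AdjoinRoot p)ˣ := ⟨1 + α, α ^ (N + 1), by linear_combination hα,
    by linear_combination hα⟩
  let T : (AdjoinRoot p)ˣ := ⟨α, α ^ N * (1 + α), by linear_combination hα,
    by linear_combination hα⟩
  let c : X → AdjoinRoot p := fun x => AdjoinRoot.of p (χ x)
  have hc : ∀ x y, c (x + y) = c x + c y := by intro x y; simp [c]
  have hc0 : c 0 = 0 := by simp [c]
  have hc' : ∀ x y, c (x - y) = c x + c y := by
    intro x y
    rw [← hc]
    congr 1
    linear_combination (norm := abel) -h2 y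
  have : Module.Finite (ZMod 2) (AdjoinRoot p) := (AdjoinRoot.powerBasis' hm).finite
  have : Finite (AdjoinRoot p) := Module.finite_of_finite (ZMod 2)
  have hS : (S : AdjoinRoot p) * (S⁻¹ : (AdjoinRoot p)ˣ) = 1 := S.mul_inv
  let f : PresentedGroup (rels X) →* Equiv.Perm (AdjoinRoot p) :=
    hom (fun i => aff S (S * c i)) (fun j => aff (S⁻¹ * T) (c j)) fun i j => by
      rw [aff_mul, aff_mul, hc, hc', mul_comm S]
      congr 1
      have e1 : (S : AdjoinRoot p) = 1 + T := rfl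
      rw [Units.val_mul]
      linear_combination (c i + c j) * e1 - T * (c i + c j) * hS
  have hE : ∀ l, f ((dat h2).E l) = aff 1 (AdjoinRoot.mk p (poly χ l)) := by
    intro l
    induction l with
    | nil => simp [Dat.E, poly, aff_one]
    | cons y l ih =>
      have ht : f (dat h2).t = aff T 0 := by
        simp [dat, f, hom_A, hom_B, hc0, aff_mul]
      have hu : f ((dat h2).u y) = aff 1 (c y) := by
        simp [dat, f, hom_A, hc0, aff_mul, aff_inv]
      simp only [Dat.E, map_mul, map_inv, ih, ht, hu, aff_inv, aff_mul, poly, map_add,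
        AdjoinRoot.mk_C, AdjoinRoot.mk_X]
      congr 1
      · simp
      · simp [c, T, α, add_comm]
  refine ⟨_, inferInstance, inferInstance, f, fun hf => ?_⟩
  rw [hE] at hf
  have := congrArg (fun e : Equiv.Perm (AdjoinRoot p) => e 0) hf
  simp only [aff, Equiv.coe_fn_mk, mul_zero, zero_add, Equiv.Perm.coe_one, id_eq] at this
  exact AdjoinRoot.mk_ne_zero_of_natDegree_lt hm hp (by omega) this

theorem rf : Group.ResiduallyFinite (PresentedGroup (rels X)) := by
  refine Group.residuallyFinite_of_forall_exists_finite_monoidHom.{0} fun g hg => ?_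
  obtain ⟨k, l, i, j, h⟩ := normal h2 g
  by_cases hij : i = 0 ∧ j = 0
  · obtain ⟨rfl, rfl⟩ := hij
    simp only [zpow_zero, mul_one] at h
    obtain ⟨H, _, _, f, hf⟩ := sep_aff h2 l (by rw [← h]; simpa using hg)
    refine ⟨H, inferInstance, inferInstance, f, fun h1 => hf ?_⟩
    rw [← h]
    simp [h1]
  · exact sep_ab h2 g k l i j h hij

end Main

theorem result :
    (∀ (X : Type) [AddCommGroup X], (∀ x : X, x + x = 0) →
      Group.ResiduallyFinite (PresentedGroup (rels X))) ∧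
    ¬ ∀ (X : Type) [AddCommGroup X] [Finite X], 2 < Nat.card X →
      ¬ Group.ResiduallyFinite (PresentedGroup (rels X)) :=
  ⟨fun _ _ h => rf h, fun h => h (ZMod 2 × ZMod 2) (by simp) (rf (by decide))⟩

end Pool.Agent.Results.MP_4d6048_al.ElemTwo
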